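import Pool.Agent.X45.Ex.Tur

set_option autoImplicit false

/-!
The number of edges of Turán's construction, and the three numbers for 3-graphs on `Fin n`.
-/

namespace Pool.Agent.X45.Ex
open Finset Pool.Agent.Y439.Col

section
variable {V : Type} [Fintype V] [DecidableEq V]

/-- The size of a class. -/
def sz (g : V → Fin 3) (p : Fin 3) : ℕ := (univ.filter fun i => g i = p).card

omit [DecidableEq V] in
theorem sum_g (g : V → Fin 3) (f : Fin 3 → ℕ) : ∑ a, f (g a) = ∑ p, sz g p * f p := by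
  rw [← Finset.sum_fiberwise (s := (univ : Finset V)) (g := g) (f := fun a => f (g a))]
  refine sum_congr rfl fun p _ => ?_
  rw [sum_congr rfl (g := fun _ => f p) fun a ha => by rw [(mem_filter.1 ha).2], sum_const,
    smul_eq_mul]
  rfl

omit [DecidableEq V] in
theorem sum_sz (g : V → Fin 3) : sz g 0 + sz g 1 + sz g 2 = Fintype.card V := by
  have := sum_g g fun _ => 1
  simp only [mul_one, sum_const, card_univ, smul_eq_mul, Fin.sum_univ_three] at this
  exact this.symm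

/-- `1` for the triples of Turán's construction. -/
def wT (x y z : Fin 3) : ℕ :=
  if kt x y z = 1 ∨ kt x y z = 2 then 1 else 0

omit [DecidableEq V] in
theorem sum_wT (g : V → Fin 3) : ∑ a, ∑ b, ∑ d, wT (g a) (g b) (g d) =
    6 * (sz g 0 * sz g 1 * sz g 2) +
      3 * (sz g 0 * sz g 0 * sz g 1 + sz g 1 * sz g 1 * sz g 2 + sz g 2 * sz g 2 * sz g 0) := by
  have h1 : ∀ a b, ∑ d, wT (g a) (g b) (g d) = ∑ r, sz g r * wT (g a) (g b) r :=
    fun a b => sum_g g fun r => wT (g a) (g b) r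
  have h2 : ∀ a, ∑ b, ∑ d, wT (g a) (g b) (g d) = ∑ q, sz g q * ∑ r, sz g r * wT (g a) q r := by
    intro a
    rw [sum_congr rfl fun b _ => h1 a b]
    exact sum_g g fun q => ∑ r, sz g r * wT (g a) q r
  have h3 : ∑ a, ∑ b, ∑ d, wT (g a) (g b) (g d) =
      ∑ p, sz g p * ∑ q, sz g q * ∑ r, sz g r * wT p q r := by
    rw [sum_congr rfl fun a _ => h2 a]
    exact sum_g g fun p => ∑ q, sz g q * ∑ r, sz g r * wT p q r
  rw [h3]
  simp only [Fin.sum_univ_three]
  have e : ∀ x y z : Fin 3, wT x y z = if kt x y z = 1 ∨ kt x y z = 2 then 1 else 0 :=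
    fun _ _ _ => rfl
  have d : (wT 0 0 0 = 0 ∧ wT 0 0 1 = 1 ∧ wT 0 0 2 = 0 ∧ wT 0 1 0 = 1 ∧ wT 0 1 1 = 0 ∧
      wT 0 1 2 = 1 ∧ wT 0 2 0 = 0 ∧ wT 0 2 1 = 1 ∧ wT 0 2 2 = 1) ∧
      (wT 1 0 0 = 1 ∧ wT 1 0 1 = 0 ∧ wT 1 0 2 = 1 ∧ wT 1 1 0 = 0 ∧ wT 1 1 1 = 0 ∧
      wT 1 1 2 = 1 ∧ wT 1 2 0 = 1 ∧ wT 1 2 1 = 1 ∧ wT 1 2 2 = 0) ∧
      (wT 2 0 0 = 0 ∧ wT 2 0 1 = 1 ∧ wT 2 0 2 = 1 ∧ wT 2 1 0 = 1 ∧ wT 2 1 1 = 1 ∧
      wT 2 1 2 = 0 ∧ wT 2 2 0 = 1 ∧ wT 2 2 1 = 0 ∧ wT 2 2 2 = 0) := by decide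
  obtain ⟨⟨d1, d2, d3, d4, d5, d6, d7, d8, d9⟩, ⟨f1, f2, f3, f4, f5, f6, f7, f8, f9⟩,
    ⟨k1, k2, k3, k4, k5, k6, k7, k8, k9⟩⟩ := d
  rw [d1, d2, d3, d4, d5, d6, d7, d8, d9, f1, f2, f3, f4, f5, f6, f7, f8, f9,
    k1, k2, k3, k4, k5, k6, k7, k8, k9]
  ring

/-- Turán's construction. -/
def turanV (g : V → Fin 3) : Finset (Finset V) :=
  univ.filter fun t => t.card = 3 ∧ ((∀ p, ∃ i ∈ t, g i = p) ∨
    ∃ p, (t.filter fun i => g i = p).card = 2 ∧ (t.filter fun i => g i = p + 1).card = 1)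

theorem tri_turan (g : V → Fin 3) {a b d : V} (hab : a ≠ b) (had : a ≠ d) (hbd : b ≠ d) :
    tri (turanV g) a b d = wT (g a) (g b) (g d) := by
  have h : ({a, b, d} : Finset V) ∈ turanV g ↔ kt (g a) (g b) (g d) = 1 ∨ kt (g a) (g b) (g d) = 2 := by
    unfold turanV
    rw [mem_filter]
    have hc : ({a, b, d} : Finset V).card = 3 := by
      rw [card_insert_of_notMem, card_insert_of_notMem, card_singleton] <;> simp [hab, had, hbd]
    have h1 := trans_iff g a b d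
    have h2 := (kind_iff g hab had hbd).1
    unfold Trans at h1
    unfold Kind at h2
    rw [h1, h2, hc]
    simp
  unfold wT
  split_ifs with hk
  · exact tri_eq_one.2 (h.2 hk)
  · exact tri_eq_zero.2 (fun hm => hk (h.1 hm))

omit [DecidableEq V] in
theorem wT_diag (g : V → Fin 3) : ∑ a, ∑ d, wT (g a) (g a) (g d) =
    sz g 0 * sz g 1 + sz g 1 * sz g 2 + sz g 2 * sz g 0 := by
  have h1 : ∀ a, ∑ d, wT (g a) (g a) (g d) = ∑ r, sz g r * wT (g a) (g a) r :=
    fun a => sum_g g fun r => wT (g a) (g a) r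
  have h3 : ∑ a, ∑ d, wT (g a) (g a) (g d) = ∑ p, sz g p * ∑ r, sz g r * wT p p r := by
    rw [sum_congr rfl fun a _ => h1 a]
    exact sum_g g fun p => ∑ r, sz g r * wT p p r
  rw [h3]
  simp only [Fin.sum_univ_three]
  have d : (wT 0 0 0 = 0 ∧ wT 0 0 1 = 1 ∧ wT 0 0 2 = 0) ∧
      (wT 1 1 0 = 0 ∧ wT 1 1 1 = 0 ∧ wT 1 1 2 = 1) ∧
      (wT 2 2 0 = 1 ∧ wT 2 2 1 = 0 ∧ wT 2 2 2 = 0) := by decide
  obtain ⟨⟨d1, d2, d3⟩, ⟨f1, f2, f3⟩, ⟨k1, k2, k3⟩⟩ := d
  rw [d1, d2, d3, f1, f2, f3, k1, k2, k3]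
  ring

theorem wT_symm : ∀ x y z : Fin 3, wT x y z = wT x z y ∧ wT x y z = wT z y x := by decide

/-- The number of edges of Turán's construction. -/
theorem six_turan (g : V → Fin 3) : 6 * (sz g 0 * sz g 1 * sz g 2) +
      3 * (sz g 0 * sz g 0 * sz g 1 + sz g 1 * sz g 1 * sz g 2 + sz g 2 * sz g 2 * sz g 0) ≤
    6 * (turanV g).card + 3 * (sz g 0 * sz g 1 + sz g 1 * sz g 2 + sz g 2 * sz g 0) := by
  have hc : ∀ e ∈ turanV g, e.card = 3 := fun e he => (mem_filter.1 he).2.1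
  rw [← sum_wT, ← sum_tri (turanV g) hc, ← wT_diag]
  have hp : ∀ a b d : V, wT (g a) (g b) (g d) ≤ tri (turanV g) a b d +
      (if b = a then wT (g a) (g b) (g d) else 0) + (if d = a then wT (g a) (g b) (g d) else 0) +
        (if d = b then wT (g a) (g b) (g d) else 0) := by
    intro a b d
    by_cases hab : b = a
    · rw [if_pos hab]; omega
    · by_cases had : d = a
      · rw [if_pos had]; omega
      · by_cases hbd : d = b
        · rw [if_pos hbd]; omega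
        · rw [tri_turan g (Ne.symm hab) (Ne.symm had) (Ne.symm hbd)]; omega
  have h1 : ∑ a, ∑ b, ∑ d, (if b = a then wT (g a) (g b) (g d) else 0) =
      ∑ a, ∑ d, wT (g a) (g a) (g d) := by
    refine sum_congr rfl fun a _ => ?_
    rw [sum_comm]
    refine sum_congr rfl fun d _ => ?_
    rw [sum_ite_eq' univ a fun b => wT (g a) (g b) (g d)]
    simp
  have h2 : ∑ a, ∑ b, ∑ d, (if d = a then wT (g a) (g b) (g d) else 0) =
      ∑ a, ∑ d, wT (g a) (g a) (g d) := by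
    refine sum_congr rfl fun a _ => ?_
    refine sum_congr rfl fun b _ => ?_
    rw [sum_ite_eq' univ a fun d => wT (g a) (g b) (g d)]
    simp only [mem_univ, if_true]
    exact (wT_symm _ _ _).1
  have h3 : ∑ a, ∑ b, ∑ d, (if d = b then wT (g a) (g b) (g d) else 0) =
      ∑ a, ∑ d, wT (g a) (g a) (g d) := by
    rw [sum_comm]
    refine sum_congr rfl fun b _ => ?_
    refine sum_congr rfl fun a _ => ?_
    rw [sum_ite_eq' univ b fun d => wT (g a) (g b) (g d)]
    simp only [mem_univ, if_true]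
    exact (wT_symm _ _ _).2
  calc ∑ a, ∑ b, ∑ d, wT (g a) (g b) (g d)
      ≤ ∑ a, ∑ b, ∑ d, (tri (turanV g) a b d +
      (if b = a then wT (g a) (g b) (g d) else 0) + (if d = a then wT (g a) (g b) (g d) else 0) +
        (if d = b then wT (g a) (g b) (g d) else 0)) :=
        sum_le_sum fun a _ => sum_le_sum fun b _ => sum_le_sum fun d _ => hp a b d
    _ = _ := by
        simp only [sum_add_distrib]
        rw [h1, h2, h3]
        ring


theorem arith (a b c : ℕ) (h1 : a ≤ b + 1) (h2 : a ≤ c + 1) (h3 : b ≤ a + 1) (h4 : b ≤ c + 1)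
    (h5 : c ≤ a + 1) (h6 : c ≤ b + 1) :
    5 * (a + b + c) ^ 3 + 27 * (a * b + b * c + c * a) ≤ 54 * (a * b * c) +
      27 * (a * a * b + b * b * c + c * c * a) + 9 * (a + b + c) ^ 2 + 6 * (a + b + c) + 12 := by
  obtain ⟨s, hs⟩ : ∃ s, s = min a (min b c) := ⟨_, rfl⟩
  have ha : a = s ∨ a = s + 1 := by omega
  have hb : b = s ∨ b = s + 1 := by omega
  have hc : c = s ∨ c = s + 1 := by omega
  rcases ha with rfl | rfl <;> rcases hb with rfl | rfl <;> rcases hc with rfl | rfl <;>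
    nlinarith

/-- The number of edges of Turán's construction with classes of almost equal sizes. -/
theorem turan_ge (g : V → Fin 3) (hg : ∀ p q, sz g p ≤ sz g q + 1) :
    5 * Fintype.card V ^ 3 ≤
      54 * (turanV g).card + 9 * Fintype.card V ^ 2 + 6 * Fintype.card V + 12 := by
  have h1 := six_turan g
  have h2 := arith (sz g 0) (sz g 1) (sz g 2) (hg _ _) (hg _ _) (hg _ _) (hg _ _) (hg _ _) (hg _ _)
  rw [sum_sz g] at h2
  omega

theorem not_turan (g : V → Fin 3) {t : Finset V} (h3 : t.card = 3) :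
    t ∉ turanV g ↔ Inner g t ∨ Kind g 2 t := by
  obtain ⟨a, b, d, hab, had, hbd, rfl⟩ := card_eq_three.1 h3
  have h : ({a, b, d} : Finset V) ∈ turanV g ↔ kt (g a) (g b) (g d) = 1 ∨ kt (g a) (g b) (g d) = 2 := by
    unfold turanV
    rw [mem_filter]
    have h1 := trans_iff g a b d
    have h2 := (kind_iff g hab had hbd).1
    unfold Trans at h1
    unfold Kind at h2
    rw [h1, h2, h3]
    simp
  rw [h, inner_iff, (kind_iff g hab had hbd).2]
  have := kt_lt (g a) (g b) (g d)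
  omega

theorem inner_add_rev (g : V → Fin 3) (H : Finset (Finset V)) (hH : ∀ e ∈ H, e.card = 3) :
    (innerE H g).card + (revE H g).card = (H \ turanV g).card := by
  rw [← card_union_of_disjoint]
  · congr 1
    ext t
    rw [mem_union, mem_innerE, mem_revE, mem_sdiff]
    constructor
    · rintro (⟨h, h1⟩ | ⟨h, h1⟩)
      · exact ⟨h, (not_turan g (hH t h)).2 (Or.inl h1)⟩
      · exact ⟨h, (not_turan g (hH t h)).2 (Or.inr h1)⟩
    · rintro ⟨h, h1⟩
      rcases (not_turan g (hH t h)).1 h1 with h2 | h2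
      · exact Or.inl ⟨h, h2⟩
      · exact Or.inr ⟨h, h2⟩
  · rw [disjoint_left]
    intro t h1 h2
    obtain ⟨h, i1⟩ := mem_innerE.1 h1
    obtain ⟨_, i2⟩ := mem_revE.1 h2
    obtain ⟨a, b, d, hab, had, hbd, rfl⟩ := card_eq_three.1 (hH t h)
    rw [inner_iff] at i1
    rw [(kind_iff g hab had hbd).2] at i2
    omega

/-- A general inequality gives one for the exchange. -/
theorem exchange (g : V → Fin 3) (H : Finset (Finset V)) (hH : ∀ e ∈ H, e.card = 3)
    (h : 216 * H.card ≤ 20 * Fintype.card V ^ 3 + 27 * (H \ turanV g).card)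
    (hg : ∀ p q, sz g p ≤ sz g q + 1) :
    7 * (H \ turanV g).card ≤ 8 * (turanV g \ H).card + 2 * Fintype.card V ^ 2 := by
  have h1 := turan_ge g hg
  have e1 : (H \ turanV g).card + (H ∩ turanV g).card = H.card := card_sdiff_add_card_inter H _
  have e2 : (turanV g \ H).card + (turanV g ∩ H).card = (turanV g).card :=
    card_sdiff_add_card_inter _ H
  rw [inter_comm] at e2
  by_cases hn : 3 ≤ Fintype.card V
  · nlinarith
  · have hn : Fintype.card V ≤ 2 := by omega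
    have : H = ∅ := by
      rw [eq_empty_iff_forall_notMem]
      intro e he
      have h1 := hH e he
      have h2 := card_le_univ e
      omega
    rw [this]
    simp

end

end Pool.Agent.X45.Ex
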