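import Pool.Agent.Y439.Col.Tools

set_option autoImplicit false

/-!
Weights for triples of vertices coloured with `0, 1, 2`, compared with Turán's construction.
-/

namespace Pool.Agent.X45.Ex

/-- The kind of a triple of colours: `0` all equal, `1` all distinct, `2` two equal `p` and the
third `p + 1` (mod 3), `3` two equal `p` and the third `p + 2` (mod 3). -/
def kd (x y z : ℕ) : ℕ :=
  match x, y, z with
  | 0, 0, 0 => 0 | 1, 1, 1 => 0 | 2, 2, 2 => 0
  | 0, 1, 2 => 1 | 0, 2, 1 => 1 | 1, 0, 2 => 1 | 1, 2, 0 => 1 | 2, 0, 1 => 1 | 2, 1, 0 => 1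
  | 0, 0, 1 => 2 | 0, 1, 0 => 2 | 1, 0, 0 => 2
  | 1, 1, 2 => 2 | 1, 2, 1 => 2 | 2, 1, 1 => 2
  | 2, 2, 0 => 2 | 2, 0, 2 => 2 | 0, 2, 2 => 2
  | _, _, _ => 3

/-- All values of `kd` in one number. -/
def kt (x y z : ℕ) : ℕ :=
  Nat.mod (Nat.shiftRight 0xee67e637a77b8 (Nat.mul 2 (Nat.add (Nat.mul 9 x) (Nat.add (Nat.mul 3 y) z)))) 4

/-- The weight of a triple: `wR` for a non-edge with three colours, `wI` for an edge with one
colour, `wV` for an edge of kind 3. -/
def wt (wR wI wV x y z b : ℕ) : ℕ :=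
  bif Nat.beq b 1 then
    (bif Nat.beq (kt x y z) 0 then wI else bif Nat.beq (kt x y z) 3 then wV else 0)
  else (bif Nat.beq (kt x y z) 1 then wR else 0)

end Pool.Agent.X45.Ex
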