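import Pool.Agent.X45.Ex.Tur2

set_option autoImplicit false

/-!
Coverings: complements of 3-graphs without four vertices spanning all four triples.
-/

namespace Pool.Agent.X45.Ex
open Finset Pool.Agent.Y439.Col

theorem choose_two' (n : ℕ) : 2 * n.choose 2 + n = n ^ 2 := by
  induction n with
  | zero => simp
  | succ n ih =>
    have h : (n + 1).choose 2 = n.choose 1 + n.choose 2 := Nat.choose_succ_succ n 1
    rw [h, Nat.choose_one_right]
    nlinarith

theorem choose_three' (n : ℕ) : 6 * n.choose 3 + 3 * n ^ 2 = n ^ 3 + 2 * n := by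
  induction n with
  | zero => simp
  | succ n ih =>
    have h : (n + 1).choose 3 = n.choose 2 + n.choose 3 := Nat.choose_succ_succ n 2
    have h2 := choose_two' n
    rw [h]
    nlinarith

section
variable {V : Type} [Fintype V] [DecidableEq V]

/-- The complement. -/
def co (T : Finset (Finset V)) : Finset (Finset V) := (univ : Finset V).powersetCard 3 \ T

theorem mem_co {T : Finset (Finset V)} {e : Finset V} : e ∈ co T ↔ e.card = 3 ∧ e ∉ T := by
  simp [co]

theorem card_co {T : Finset (Finset V)} (h3 : ∀ e ∈ T, e.card = 3) :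
    T.card + (co T).card = (Fintype.card V).choose 3 := by
  have hsub : T ⊆ powersetCard 3 (univ : Finset V) := fun e he =>
    mem_powersetCard_univ.2 (h3 e he)
  have := card_sdiff_add_card_eq_card hsub
  rw [card_powersetCard, card_univ] at this
  unfold co
  omega

theorem co_free {T : Finset (Finset V)} (h3 : ∀ e ∈ T, e.card = 3)
    (hc : ∀ S : Finset V, S.card = 4 → ∃ e ∈ T, e ⊆ S) :
    ∀ S : Finset V, S.card = 4 → ∃ e ⊆ S, e.card = 3 ∧ e ∉ co T := by
  intro S hS
  obtain ⟨e, heT, heS⟩ := hc S hS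
  exact ⟨e, heS, h3 e heT, fun h => (mem_co.1 h).2 heT⟩

/-- The edges of the complement outside Turán's construction. -/
theorem co_sdiff {T : Finset (Finset V)} (T0 : Finset (Finset V)) (g : V → Fin 3)
    (h0 : ∀ e : Finset V, e ∈ T0 ↔ e.card = 3 ∧ (Inner g e ∨ Kind g 2 e)) :
    co T \ turanV g = T0 \ T := by
  ext e
  rw [mem_sdiff, mem_sdiff, mem_co, h0]
  constructor
  · rintro ⟨⟨a, b⟩, d⟩
    exact ⟨⟨a, (not_turan g a).1 d⟩, b⟩
  · rintro ⟨⟨a, b⟩, d⟩
    exact ⟨⟨a, d⟩, (not_turan g a).2 b⟩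

theorem sdiff_co {T : Finset (Finset V)} (h3 : ∀ e ∈ T, e.card = 3) (T0 : Finset (Finset V))
    (g : V → Fin 3) (h0 : ∀ e : Finset V, e ∈ T0 ↔ e.card = 3 ∧ (Inner g e ∨ Kind g 2 e)) :
    turanV g \ co T = T \ T0 := by
  ext e
  rw [mem_sdiff, mem_sdiff, mem_co, h0]
  constructor
  · rintro ⟨a, b⟩
    have h3e : e.card = 3 := (mem_filter.1 a).2.1
    have hT : e ∈ T := by
      by_contra h
      exact b ⟨h3e, h⟩
    refine ⟨hT, fun h => ?_⟩
    exact (not_turan g h3e).2 h.2 a
  · rintro ⟨a, b⟩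
    have h3e := h3 e a
    refine ⟨?_, fun h => h.2 a⟩
    by_contra h
    exact b ⟨h3e, (not_turan g h3e).1 h⟩

end

end Pool.Agent.X45.Ex
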