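import Pool.Agent.X45.Ex.DData
import Pool.Agent.X45.Ex.Wt

set_option autoImplicit false
set_option maxRecDepth 100000

namespace Pool.Agent.X45.Ex.D
open Finset Pool.Agent.Y439.Col Pool.Agent.X45.Ex

theorem psd_ok : psdOK rows = true := by decide +kernel

theorem tab_ok : tabOK val rows ((536870912 : ℕ) : ℤ) = true := by decide +kernel

theorem good : Good val rows 536870912 := good_of tab_ok psd_ok

/-- The weights. -/
def pt : Pat := fun x y z _ _ b _ _ _ _ _ _ _ _ _ => wt 0 0 1 x y z b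

theorem chk00 : (allb 3 fun C2 => !(Nat.ble 0 C2) || (allb 3 fun C3 => !(Nat.ble C2 C3) ||
    (allb 3 fun C4 => !(Nat.ble C3 C4) || chk true val 28800000 (50 * 28800000 + 75 * 536870912) 864000 pt 0 0 C2 C3 C4))) = true := by
  decide +kernel

theorem chk01 : (allb 3 fun C2 => !(Nat.ble 1 C2) || (allb 3 fun C3 => !(Nat.ble C2 C3) ||
    (allb 3 fun C4 => !(Nat.ble C3 C4) || chk true val 28800000 (50 * 28800000 + 75 * 536870912) 864000 pt 0 1 C2 C3 C4))) = true := by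
  decide +kernel

theorem chk02 : (allb 3 fun C2 => !(Nat.ble 2 C2) || (allb 3 fun C3 => !(Nat.ble C2 C3) ||
    (allb 3 fun C4 => !(Nat.ble C3 C4) || chk true val 28800000 (50 * 28800000 + 75 * 536870912) 864000 pt 0 2 C2 C3 C4))) = true := by
  decide +kernel

theorem chk11 : (allb 3 fun C2 => !(Nat.ble 1 C2) || (allb 3 fun C3 => !(Nat.ble C2 C3) ||
    (allb 3 fun C4 => !(Nat.ble C3 C4) || chk true val 28800000 (50 * 28800000 + 75 * 536870912) 864000 pt 1 1 C2 C3 C4))) = true := by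
  decide +kernel

theorem chk12 : (allb 3 fun C2 => !(Nat.ble 2 C2) || (allb 3 fun C3 => !(Nat.ble C2 C3) ||
    (allb 3 fun C4 => !(Nat.ble C3 C4) || chk true val 28800000 (50 * 28800000 + 75 * 536870912) 864000 pt 1 2 C2 C3 C4))) = true := by
  decide +kernel

theorem chk22 : (allb 3 fun C2 => !(Nat.ble 2 C2) || (allb 3 fun C3 => !(Nat.ble C2 C3) ||
    (allb 3 fun C4 => !(Nat.ble C3 C4) || chk true val 28800000 (50 * 28800000 + 75 * 536870912) 864000 pt 2 2 C2 C3 C4))) = true := by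
  decide +kernel

theorem chk (C0 C1 C2 C3 C4 : ℕ) (h01 : C0 ≤ C1) (h12 : C1 ≤ C2) (h23 : C2 ≤ C3) (h34 : C3 ≤ C4)
    (h4 : C4 < 3) : Pool.Agent.Y439.Col.chk true val 28800000 (50 * 28800000 + 75 * 536870912) 864000 pt C0 C1 C2 C3 C4 = true := by
  have key : ∀ b : ℕ, b ≤ C2 → ∀ f : ℕ → ℕ → ℕ → Bool,
      (allb 3 fun C2 => !(Nat.ble b C2) || (allb 3 fun C3 => !(Nat.ble C2 C3) || (allb 3 fun C4 => !(Nat.ble C3 C4) || f C2 C3 C4))) = true →
      f C2 C3 C4 = true := by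
    intro b hb f h
    have g2 := or_elim_le (allb_elim h C2 (by omega)) hb
    have g3 := or_elim_le (allb_elim g2 C3 (by omega)) h23
    exact or_elim_le (allb_elim g3 C4 (by omega)) h34
  have c0 : C0 = 0 ∨ C0 = 1 ∨ C0 = 2 := by omega
  have c1 : C1 = 0 ∨ C1 = 1 ∨ C1 = 2 := by omega
  rcases c0 with rfl | rfl | rfl <;> rcases c1 with rfl | rfl | rfl
  · exact key 0 h12 (fun C2 C3 C4 => Pool.Agent.Y439.Col.chk true val 28800000 (50 * 28800000 + 75 * 536870912) 864000 pt 0 0 C2 C3 C4) chk00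
  · exact key 1 h12 (fun C2 C3 C4 => Pool.Agent.Y439.Col.chk true val 28800000 (50 * 28800000 + 75 * 536870912) 864000 pt 0 1 C2 C3 C4) chk01
  · exact key 2 h12 (fun C2 C3 C4 => Pool.Agent.Y439.Col.chk true val 28800000 (50 * 28800000 + 75 * 536870912) 864000 pt 0 2 C2 C3 C4) chk02
  · omega
  · exact key 1 h12 (fun C2 C3 C4 => Pool.Agent.Y439.Col.chk true val 28800000 (50 * 28800000 + 75 * 536870912) 864000 pt 1 1 C2 C3 C4) chk11
  · exact key 2 h12 (fun C2 C3 C4 => Pool.Agent.Y439.Col.chk true val 28800000 (50 * 28800000 + 75 * 536870912) 864000 pt 1 2 C2 C3 C4) chk12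
  · omega
  · omega
  · exact key 2 h12 (fun C2 C3 C4 => Pool.Agent.Y439.Col.chk true val 28800000 (50 * 28800000 + 75 * 536870912) 864000 pt 2 2 C2 C3 C4) chk22

theorem final {V : Type*} [Fintype V] (c : V → ℕ) (hc : ∀ x, c x < 3) (e : V → V → V → ℕ)
    (e1 : ∀ x y z, e x y z ≤ 1)
    (s1 : ∀ x y z, e x y z = e y x z) (s2 : ∀ x y z, e x y z = e x z y)
    (hin : ∀ x y z, c x = c y → c y = c z → e x y z = 0)
    (hK : ∀ x y z w, e x y z = 0 ∨ e x y w = 0 ∨ e x z w = 0 ∨ e y z w = 0) :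
    90 * 28800000 * (Fintype.card V ^ 2 * ∑ a, ∑ b, ∑ d, e a b d) ≤
      50 * 28800000 * Fintype.card V ^ 5 +
        120 * 864000 * ∑ x : Fin 5 → V, pg pt c e (x 0) (x 1) (x 2) (x 3) (x 4) :=
  Pool.Agent.Y439.Col.main good true 28800000 864000 pt chk c hc e e1 s1 s2 (fun _ => hin) hK

end Pool.Agent.X45.Ex.D
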