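import Pool.Agent.Y439.Col.Tri
import Pool.Agent.X45.Ex.Wt

set_option autoImplicit false

/-!
From the inequality for coloured 5-tuples to the numbers of missing transversals, of inner edges and
of reversed edges.
-/

namespace Pool.Agent.X45.Ex
open Finset Pool.Agent.Y439.Col

/-- The numbers of vertices of a triple in the class `p`. -/
def cnt (x y z p : Fin 3) : ℕ :=
  (if x = p then 1 else 0) + (if y = p then 1 else 0) + (if z = p then 1 else 0)

section
variable {V : Type} [DecidableEq V]

theorem card_filter3 (g : V → Fin 3) {a b d : V} (hab : a ≠ b) (had : a ≠ d) (hbd : b ≠ d)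
    (p : Fin 3) : (({a, b, d} : Finset V).filter fun i => g i = p).card =
      cnt (g a) (g b) (g d) p := by
  rw [filter_insert, filter_insert, filter_singleton]
  unfold cnt
  by_cases h1 : g a = p <;> by_cases h2 : g b = p <;> by_cases h3 : g d = p <;>
    simp [h1, h2, h3, hab, had, hbd]

/-- The triple meets all three classes. -/
def Trans (g : V → Fin 3) (t : Finset V) : Prop := ∀ p, ∃ i ∈ t, g i = p

/-- The triple lies in a class. -/
def Inner (g : V → Fin 3) (t : Finset V) : Prop := ∃ p, ∀ i ∈ t, g i = p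

/-- Two vertices in the class `p` and one in the class `p + q`. -/
def Kind (g : V → Fin 3) (q : Fin 3) (t : Finset V) : Prop :=
  ∃ p, (t.filter fun i => g i = p).card = 2 ∧ (t.filter fun i => g i = p + q).card = 1

theorem trans_iff (g : V → Fin 3) (a b d : V) :
    Trans g {a, b, d} ↔ kt (g a) (g b) (g d) = 1 := by
  unfold Trans
  simp only [mem_insert, mem_singleton, exists_eq_or_imp, exists_eq_left]
  generalize g a = x
  generalize g b = y
  generalize g d = z
  revert x y z
  decide

theorem inner_iff (g : V → Fin 3) (a b d : V) :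
    Inner g {a, b, d} ↔ kt (g a) (g b) (g d) = 0 := by
  unfold Inner
  simp only [mem_insert, mem_singleton, forall_eq_or_imp, forall_eq]
  generalize g a = x
  generalize g b = y
  generalize g d = z
  revert x y z
  decide

theorem kind_iff (g : V → Fin 3) {a b d : V} (hab : a ≠ b) (had : a ≠ d) (hbd : b ≠ d) :
    (Kind g 1 {a, b, d} ↔ kt (g a) (g b) (g d) = 2) ∧
      (Kind g 2 {a, b, d} ↔ kt (g a) (g b) (g d) = 3) := by
  unfold Kind
  simp only [card_filter3 g hab had hbd]
  generalize g a = x
  generalize g b = y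
  generalize g d = z
  revert x y z
  decide

theorem kt_lt (x y z : ℕ) : kt x y z < 4 := Nat.mod_lt _ (by norm_num)

theorem kt_eq {x y z : ℕ} (hx : x < 3) (hy : y < 3) (hz : z < 3) (h : kt x y z = 1) :
    x ≠ y ∧ x ≠ z ∧ y ≠ z := by
  interval_cases x <;> interval_cases y <;> interval_cases z <;> revert h <;> decide

end

section
variable {V : Type} [Fintype V] [DecidableEq V]

theorem sum_tri (H : Finset (Finset V)) (hH : ∀ e ∈ H, e.card = 3) :
    ∑ a, ∑ b, ∑ d, tri H a b d = 6 * H.card := by
  refine le_antisymm ?_ (six_card_le hH)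
  set T : Finset (V × V × V) := univ.filter fun t => ({t.1, t.2.1, t.2.2} : Finset V) ∈ H with hT
  have e : ∑ a, ∑ b, ∑ c, tri H a b c = T.card := by
    rw [hT, Finset.card_filter, Fintype.sum_prod_type]
    refine sum_congr rfl fun a _ => ?_
    rw [Fintype.sum_prod_type]
    rfl
  have hfw := card_eq_sum_card_fiberwise (s := T)
    (f := fun t : V × V × V => ({t.1, t.2.1, t.2.2} : Finset V))
    (t := H) (fun t ht => (mem_filter.mp (mem_coe.mp ht)).2)
  rw [e, hfw, mul_comm, ← smul_eq_mul, ← sum_const]
  refine sum_le_sum fun s hs => ?_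
  obtain ⟨x, y, z, hxy, hxz, hyz, rfl⟩ := Finset.card_eq_three.mp (hH s hs)
  have h6 : ({(x, y, z), (x, z, y), (y, x, z), (y, z, x), (z, x, y), (z, y, x)} :
      Finset (V × V × V)).card ≤ 6 := card_le_six
  refine le_trans (card_le_card ?_) h6
  rintro ⟨u, v, w⟩ ht
  have h1 := (mem_filter.1 ht).2
  have hm := (mem_filter.1 (mem_filter.1 ht).1).2
  obtain ⟨huv, huw, hvw⟩ := distinct_of_mem hH hm
  simp only at h1 huv huw hvw
  have hu : u ∈ ({x, y, z} : Finset V) := by rw [← h1]; simp
  have hv : v ∈ ({x, y, z} : Finset V) := by rw [← h1]; simp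
  have hw : w ∈ ({x, y, z} : Finset V) := by rw [← h1]; simp
  simp only [mem_insert, mem_singleton] at hu hv hw
  simp only [mem_insert, mem_singleton, Prod.mk.injEq]
  rcases hu with rfl | rfl | rfl <;> rcases hv with rfl | rfl | rfl <;>
    rcases hw with rfl | rfl | rfl <;> simp_all

end

open scoped Classical in
/-- The transversals of the classes that are not in `H`. -/
noncomputable def missT {V : Type} [Fintype V] [DecidableEq V] (H : Finset (Finset V))
    (g : V → Fin 3) : Finset (Finset V) :=
  ((univ : Finset V).powersetCard 3).filter fun t => Trans g t ∧ t ∉ H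

open scoped Classical in
/-- The members of `H` inside classes. -/
noncomputable def innerE {V : Type} (H : Finset (Finset V)) (g : V → Fin 3) :
    Finset (Finset V) :=
  H.filter fun t => Inner g t

open scoped Classical in
/-- The members of `H` with two vertices in a class and one in the previous class. -/
noncomputable def revE {V : Type} [DecidableEq V] (H : Finset (Finset V)) (g : V → Fin 3) :
    Finset (Finset V) :=
  H.filter fun t => Kind g 2 t

section
variable {V : Type} [Fintype V] [DecidableEq V]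

theorem mem_missT {H : Finset (Finset V)} {g : V → Fin 3} {t : Finset V} :
    t ∈ missT H g ↔ t.card = 3 ∧ Trans g t ∧ t ∉ H := by
  simp [missT]

omit [Fintype V] [DecidableEq V] in
theorem mem_innerE {H : Finset (Finset V)} {g : V → Fin 3} {t : Finset V} :
    t ∈ innerE H g ↔ t ∈ H ∧ Inner g t := by
  simp [innerE]

omit [Fintype V] in
theorem mem_revE {H : Finset (Finset V)} {g : V → Fin 3} {t : Finset V} :
    t ∈ revE H g ↔ t ∈ H ∧ Kind g 2 t := by
  simp [revE]

theorem wt_le (wR wI wV : ℕ) (H : Finset (Finset V)) (hH : ∀ e ∈ H, e.card = 3) (g : V → Fin 3)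
    (a b d : V) : wt wR wI wV (g a) (g b) (g d) (tri H a b d) ≤
      wR * tri (missT H g) a b d + wI * tri (innerE H g) a b d + wV * tri (revE H g) a b d := by
  classical
  have hk := kt_lt (g a) (g b) (g d)
  by_cases hm : ({a, b, d} : Finset V) ∈ H
  · have ht : tri H a b d = 1 := tri_eq_one.2 hm
    obtain ⟨hab, had, hbd⟩ := distinct_of_mem hH hm
    rw [ht]
    have e : wt wR wI wV (g a) (g b) (g d) 1 =
        bif Nat.beq (kt (g a) (g b) (g d)) 0 then wI
          else bif Nat.beq (kt (g a) (g b) (g d)) 3 then wV else 0 := rfl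
    rw [e]
    by_cases h0 : kt (g a) (g b) (g d) = 0
    · have h1 : tri (innerE H g) a b d = 1 := by
        rw [tri_eq_one]
        exact mem_innerE.2 ⟨hm, (inner_iff g a b d).2 h0⟩
      rw [h0, h1]
      have : (bif Nat.beq 0 0 then wI else bif Nat.beq 0 3 then wV else 0) = wI := rfl
      rw [this]
      linarith [Nat.zero_le (wR * tri (missT H g) a b d), Nat.zero_le (wV * tri (revE H g) a b d)]
    · by_cases h3 : kt (g a) (g b) (g d) = 3
      · have h1 : tri (revE H g) a b d = 1 := by
          rw [tri_eq_one]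
          exact mem_revE.2 ⟨hm, (kind_iff g hab had hbd).2.2 h3⟩
        rw [h3, h1]
        have : (bif Nat.beq 3 0 then wI else bif Nat.beq 3 3 then wV else 0) = wV := rfl
        rw [this]
        linarith [Nat.zero_le (wR * tri (missT H g) a b d),
          Nat.zero_le (wI * tri (innerE H g) a b d)]
      · have : kt (g a) (g b) (g d) = 1 ∨ kt (g a) (g b) (g d) = 2 := by omega
        rcases this with h | h
        · rw [h]; exact Nat.zero_le _
        · rw [h]; exact Nat.zero_le _
  · have ht : tri H a b d = 0 := tri_eq_zero.2 hm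
    rw [ht]
    have e : wt wR wI wV (g a) (g b) (g d) 0 =
        bif Nat.beq (kt (g a) (g b) (g d)) 1 then wR else 0 := rfl
    rw [e]
    by_cases h1 : kt (g a) (g b) (g d) = 1
    · obtain ⟨n1, n2, n3⟩ := kt_eq (g a).2 (g b).2 (g d).2 h1
      have hab : a ≠ b := fun h => n1 (by rw [h])
      have had : a ≠ d := fun h => n2 (by rw [h])
      have hbd : b ≠ d := fun h => n3 (by rw [h])
      have h2 : tri (missT H g) a b d = 1 := by
        rw [tri_eq_one]
        refine mem_missT.2 ⟨?_, (trans_iff g a b d).2 h1, hm⟩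
        rw [card_insert_of_notMem, card_insert_of_notMem, card_singleton] <;>
        simp [hab, had, hbd]
      rw [h1, h2]
      have : (bif Nat.beq 1 1 then wR else 0) = wR := rfl
      rw [this]
      linarith [Nat.zero_le (wI * tri (innerE H g) a b d), Nat.zero_le (wV * tri (revE H g) a b d)]
    · have : Nat.beq (kt (g a) (g b) (g d)) 1 = false := by
        rcases hb : Nat.beq (kt (g a) (g b) (g d)) 1 with _ | _
        · rfl
        · exact absurd (Nat.eq_of_beq_eq_true hb) h1
      rw [this]
      exact Nat.zero_le _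

theorem missT_card (H : Finset (Finset V)) (g : V → Fin 3) : ∀ e ∈ missT H g, e.card = 3 :=
  fun _ he => (mem_missT.1 he).1

/-- The sum of the weights. -/
theorem sum_wt (wR wI wV : ℕ) (H : Finset (Finset V)) (hH : ∀ e ∈ H, e.card = 3)
    (g : V → Fin 3) (pt : Pat)
    (hpt : ∀ C0 C1 C2 C3 C4 b0 b1 b2 b3 b4 b5 b6 b7 b8 b9 : ℕ,
      pt C0 C1 C2 C3 C4 b0 b1 b2 b3 b4 b5 b6 b7 b8 b9 = wt wR wI wV C0 C1 C2 b0) :
    ∑ x : Fin 5 → V, pg pt (fun v => (g v : ℕ)) (tri H) (x 0) (x 1) (x 2) (x 3) (x 4) ≤
      Fintype.card V ^ 2 * (6 * (wR * (missT H g).card + wI * (innerE H g).card +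
        wV * (revE H g).card)) := by
  classical
  have h1 : ∀ x : Fin 5 → V,
      pg pt (fun v => (g v : ℕ)) (tri H) (x 0) (x 1) (x 2) (x 3) (x 4) =
      (fun a b d : V => wt wR wI wV (g a) (g b) (g d) (tri H a b d)) (x 0) (x 1) (x 2) := by
    intro x
    unfold pg
    rw [hpt]
  rw [sum_congr rfl fun x _ => h1 x,
    e_sum (fun a b d : V => wt wR wI wV (g a) (g b) (g d) (tri H a b d))]
  refine Nat.mul_le_mul_left _ ?_
  calc ∑ a, ∑ b, ∑ d, wt wR wI wV (g a) (g b) (g d) (tri H a b d)
      ≤ ∑ a, ∑ b, ∑ d, (wR * tri (missT H g) a b d + wI * tri (innerE H g) a b d +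
          wV * tri (revE H g) a b d) :=
        sum_le_sum fun a _ => sum_le_sum fun b _ => sum_le_sum fun d _ =>
          wt_le wR wI wV H hH g a b d
    _ = wR * (∑ a, ∑ b, ∑ d, tri (missT H g) a b d) +
          wI * (∑ a, ∑ b, ∑ d, tri (innerE H g) a b d) +
          wV * (∑ a, ∑ b, ∑ d, tri (revE H g) a b d) := by
        simp only [sum_add_distrib, mul_sum]
    _ = _ := by
        rw [sum_tri (missT H g) (missT_card H g),
          sum_tri (innerE H g) (fun e he => hH e (mem_innerE.1 he).1),
          sum_tri (revE H g) (fun e he => hH e (mem_revE.1 he).1)]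
        ring

/-- The inequality in terms of the three numbers. -/
theorem bridge (wR wI wV W lam : ℕ) (H : Finset (Finset V))
    (hH : ∀ e ∈ H, e.card = 3) (g : V → Fin 3) (pt : Pat)
    (hpt : ∀ C0 C1 C2 C3 C4 b0 b1 b2 b3 b4 b5 b6 b7 b8 b9 : ℕ,
      pt C0 C1 C2 C3 C4 b0 b1 b2 b3 b4 b5 b6 b7 b8 b9 = wt wR wI wV C0 C1 C2 b0)
    (h : 90 * W * (Fintype.card V ^ 2 * ∑ a, ∑ b, ∑ d, tri H a b d) ≤
      50 * W * Fintype.card V ^ 5 +
        120 * lam * ∑ x : Fin 5 → V,
          pg pt (fun v => (g v : ℕ)) (tri H) (x 0) (x 1) (x 2) (x 3) (x 4)) :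
    54 * W * H.card ≤ 5 * W * Fintype.card V ^ 3 +
      72 * lam * (wR * (missT H g).card + wI * (innerE H g).card + wV * (revE H g).card) := by
  rcases Nat.eq_zero_or_pos (Fintype.card V) with h0 | hpos
  · have hV : IsEmpty V := Fintype.card_eq_zero_iff.1 h0
    have : H = ∅ := by
      rw [eq_empty_iff_forall_notMem]
      intro e he
      have h1 := hH e he
      have h2 : e = ∅ := by
        rw [eq_empty_iff_forall_notMem]
        intro x _
        exact hV.elim x
      rw [h2] at h1
      simp at h1
    rw [this]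
    simp
  rw [sum_tri H hH] at h
  have h2 := Nat.mul_le_mul_left (120 * lam) (sum_wt wR wI wV H hH g pt hpt)
  have h3 := h.trans (Nat.add_le_add_left h2 _)
  have h4 : Fintype.card V ^ 2 * 10 * (54 * W * H.card) ≤
      Fintype.card V ^ 2 * 10 * (5 * W * Fintype.card V ^ 3 +
      72 * lam * (wR * (missT H g).card + wI * (innerE H g).card + wV * (revE H g).card)) := by
    calc Fintype.card V ^ 2 * 10 * (54 * W * H.card)
        = 90 * W * (Fintype.card V ^ 2 * (6 * H.card)) := by ring
      _ ≤ _ := h3
      _ = _ := by ring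
  exact Nat.le_of_mul_le_mul_left h4 (by positivity)

end

end Pool.Agent.X45.Ex
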